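import Pool.Agent.Helper62.BM.Stm
import Pool.Agent.Helper12.BM.Frac

/-!
# Horizontal vectors of an irreducible connection (package W_Strong, the abstract part)
-/

set_option autoImplicit false

open Polynomial Matrix Finset

namespace Pool.Agent.Helper12.BW

open Pool.Agent.Helper62.BM Pool.Agent.Helper12.BM

/-! ## The extension of a derivation to the field of fractions -/

section frac

variable {A L : Type} [CommRing A] [IsDomain A] [Field L] [Algebra A L] [IsFractionRing A L]
  (d : A →+ A) (hd : ∀ x y, d (x * y) = x * d y + y * d x)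

include hd in
theorem d_one : d 1 = 0 := by
  have h := hd 1 1
  rw [one_mul, one_mul] at h
  have h2 : d 1 + d 1 = d 1 + 0 := by rw [add_zero]; exact h.symm
  exact add_left_cancel h2

variable (L)

/-- `q ↦ q + d q ε` -/
noncomputable def toD : A →+* TrivSqZeroExt L L where
  toFun q := (algebraMap A L q, algebraMap A L (d q))
  map_one' := by
    apply TrivSqZeroExt.ext
    · change algebraMap A L 1 = 1
      rw [map_one]
    · change algebraMap A L (d 1) = 0
      rw [d_one d hd, map_zero]
  map_zero' := by
    apply TrivSqZeroExt.ext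
    · change algebraMap A L 0 = 0
      rw [map_zero]
    · change algebraMap A L (d 0) = 0
      rw [map_zero, map_zero]
  map_add' x y := by
    apply TrivSqZeroExt.ext
    · change algebraMap A L (x + y) = algebraMap A L x + algebraMap A L y
      rw [map_add]
    · change algebraMap A L (d (x + y)) = algebraMap A L (d x) + algebraMap A L (d y)
      rw [map_add, map_add]
  map_mul' x y := by
    apply TrivSqZeroExt.ext
    · change algebraMap A L (x * y) = algebraMap A L x * algebraMap A L y
      rw [map_mul]
    · change algebraMap A L (d (x * y)) = algebraMap A L x • algebraMap A L (d y) +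
        MulOpposite.op (algebraMap A L y) • algebraMap A L (d x)
      rw [hd, map_add, map_mul, map_mul, smul_eq_mul, op_smul_eq_mul]
      ring

theorem toD_unit (y : nonZeroDivisors A) : IsUnit (toD L d hd y) := by
  rw [TrivSqZeroExt.isUnit_iff_isUnit_fst]
  exact (IsFractionRing.to_map_ne_zero_of_mem_nonZeroDivisors (K := L) y.2).isUnit

/-- the extension to the field of fractions -/
noncomputable def toDK : L →+* TrivSqZeroExt L L :=
  IsLocalization.lift (toD_unit L d hd)

theorem toDK_alg (q : A) : toDK L d hd (algebraMap A L q) = toD L d hd q :=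
  IsLocalization.lift_eq _ _

theorem toDK_fst (x : L) : (toDK L d hd x).fst = x := by
  have h : ((TrivSqZeroExt.fstHom L L L).toRingHom.comp (toDK L d hd)) = RingHom.id L := by
    apply IsLocalization.ringHom_ext (nonZeroDivisors A)
    ext q
    change (toDK L d hd (algebraMap A L q)).fst = _
    rw [toDK_alg]
    rfl
  exact RingHom.congr_fun h x

/-- the derivation, as an additive map -/
noncomputable def derF : L →+ L where
  toFun x := (toDK L d hd x).snd
  map_zero' := by rw [map_zero]; rfl
  map_add' x y := by rw [map_add]; rfl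

theorem derF_mul (a b : L) : derF L d hd (a * b) = a * derF L d hd b + b * derF L d hd a := by
  change (toDK L d hd (a * b)).snd = a * (toDK L d hd b).snd + b * (toDK L d hd a).snd
  rw [map_mul, TrivSqZeroExt.snd_mul, toDK_fst, toDK_fst, op_smul_eq_mul,
    smul_eq_mul, mul_comm (toDK L d hd a).snd]

/-- the derivation of the field of fractions -/
noncomputable def derQ : Der L := mkDer (derF L d hd) (derF_mul L d hd)

theorem derQ_alg (q : A) : derQ L d hd (algebraMap A L q) = algebraMap A L (d q) := by
  change (toDK L d hd (algebraMap A L q)).snd = _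
  rw [toDK_alg]
  rfl

end frac

/-! ## Derivations and matrices -/

section mat

variable {F : Type} [Field F] {n : ℕ}

theorem der_mulVec (D : Der F) (M : Matrix (Fin n) (Fin n) F) (v : Fin n → F) :
    (fun i => D ((M *ᵥ v) i)) = (M.map D) *ᵥ v + M *ᵥ (fun i => D (v i)) := by
  funext i
  rw [Pi.add_apply]
  unfold Matrix.mulVec dotProduct
  rw [map_sum, ← Finset.sum_add_distrib]
  refine Finset.sum_congr rfl fun j _ => ?_
  rw [Derivation.leibniz, smul_eq_mul, smul_eq_mul]
  change M i j * D (v j) + v j * D (M i j) = D (M i j) * v j + M i j * D (v j)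
  ring

theorem der_smulVec (D : Der F) (c : F) (v : Fin n → F) :
    (fun i => D ((c • v) i)) = (D c) • v + c • (fun i => D (v i)) := by
  funext i
  rw [Pi.add_apply, Pi.smul_apply, Pi.smul_apply, Pi.smul_apply, smul_eq_mul, smul_eq_mul,
    smul_eq_mul, Derivation.leibniz, smul_eq_mul, smul_eq_mul]
  ring

end mat

/-! ## The algebraic closure in an extension is stable -/

section alg

variable {K L : Type} [Field K] [Field L] [Algebra K L] [CharZero K]

theorem der_alg (DK : Der K) (DL : Der L)
    (hD : ∀ z, DL (algebraMap K L z) = algebraMap K L (DK z)) (a : L)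
    (ha : a ∈ algebraicClosure K L) : DL a ∈ algebraicClosure K L := by
  have hint : IsIntegral K a := (mem_algebraicClosure_iff.1 ha).isIntegral
  set P := minpoly K a with hP
  have hPa : aeval a P = 0 := minpoly.aeval K a
  have hirr : Irreducible P := minpoly.irreducible hint
  have hsep : P.Separable := hirr.separable
  have hne : aeval a (derivative P) ≠ 0 := by
    intro h0
    have hdvd := minpoly.dvd K a h0
    exact (hsep.isUnit_of_dvd' dvd_rfl hdvd) |> hirr.1
  -- the derivative of `P(a) = 0`
  have key : ∀ R : K[X], ∃ R' : K[X], DL (aeval a R) = aeval a R' + aeval a (derivative R) * DL a := by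
    intro R
    induction R using Polynomial.induction_on' with
    | add p q hp hq =>
      obtain ⟨p', hp'⟩ := hp
      obtain ⟨q', hq'⟩ := hq
      refine ⟨p' + q', ?_⟩
      rw [map_add, map_add, hp', hq', map_add, derivative_add, map_add]
      ring
    | monomial m c =>
      refine ⟨monomial m (DK c), ?_⟩
      rw [aeval_monomial, Derivation.leibniz, hD, Derivation.leibniz_pow, aeval_monomial,
        derivative_monomial, aeval_monomial, smul_eq_mul, smul_eq_mul, nsmul_eq_mul, smul_eq_mul,
        map_mul, map_natCast]
      ring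
  obtain ⟨R', hR'⟩ := key P
  rw [hPa, map_zero] at hR'
  have h1 : DL a = -(aeval a R') / aeval a (derivative P) := by
    rw [eq_div_iff hne]
    linear_combination -hR'
  have hmem : ∀ R : K[X], aeval a R ∈ algebraicClosure K L := by
    intro R
    have h2 : aeval (algebraMap (algebraicClosure K L) L ⟨a, ha⟩) R =
        algebraMap (algebraicClosure K L) L (aeval (⟨a, ha⟩ : algebraicClosure K L) R) :=
      aeval_algebraMap_apply L (⟨a, ha⟩ : algebraicClosure K L) R
    have h3 : aeval a R = algebraMap (algebraicClosure K L) L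
        (aeval (⟨a, ha⟩ : algebraicClosure K L) R) := h2
    rw [h3]
    exact (aeval (⟨a, ha⟩ : algebraicClosure K L) R).2
  rw [h1]
  exact div_mem (neg_mem (hmem R')) (hmem _)

/-- The derivation of the algebraic closure. -/
noncomputable def derE (DK : Der K) (DL : Der L)
    (hD : ∀ z, DL (algebraMap K L z) = algebraMap K L (DK z)) : Der (algebraicClosure K L) :=
  mkDer
    { toFun := fun a => ⟨DL (a : L), der_alg DK DL hD a a.2⟩
      map_zero' := Subtype.ext (map_zero DL)
      map_add' := fun a b => Subtype.ext (map_add DL (a : L) b) }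
    fun a b => Subtype.ext (by
      change DL ((a : L) * b) = (a : L) * DL b + (b : L) * DL a
      rw [Derivation.leibniz, smul_eq_mul, smul_eq_mul])

theorem derE_coe (DK : Der K) (DL : Der L)
    (hD : ∀ z, DL (algebraMap K L z) = algebraMap K L (DK z)) (a : algebraicClosure K L) :
    ((derE DK DL hD a : algebraicClosure K L) : L) = DL (a : L) := rfl

/-- Schur. -/
theorem schur (DK : Der K) (DL : Der L)
    (hD : ∀ z, DL (algebraMap K L z) = algebraMap K L (DK z)) {n : ℕ}
    (B : Matrix (Fin n) (Fin n) K)
    (hirr : ∀ δ : Der (algebraicClosure K L),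
      (∀ z, δ (algebraMap K (algebraicClosure K L) z) =
        algebraMap K (algebraicClosure K L) (DK z)) →
      ∀ W : Submodule (algebraicClosure K L) (Fin n → algebraicClosure K L),
      (∀ u ∈ W, (fun i => δ (u i)) + (B.map (algebraMap K (algebraicClosure K L))) *ᵥ u ∈ W) →
        W = ⊥ ∨ W = ⊤)
    (x : Fin n → L) (hx : (fun a => DL (x a)) = -((B.map (algebraMap K L)) *ᵥ x)) (hx0 : x ≠ 0)
    (θ : Matrix (Fin n) (Fin n) K) (c : L) (hθ : θ.map (algebraMap K L) *ᵥ x = c • x) :
    ∃ q : K, θ = Matrix.diagonal fun _ => q := by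
  set E := algebraicClosure K L with hE
  set δ : Der E := derE DK DL hD with hδ
  -- the submodule
  let V : Submodule E (Fin n → E) :=
    { carrier := {u | ∀ (η : Matrix (Fin n) (Fin n) K) (e : E),
        η.map (algebraMap K L) *ᵥ x = (e : L) • x → η.map (algebraMap K E) *ᵥ u = e • u}
      zero_mem' := fun η e _ => by rw [Matrix.mulVec_zero, smul_zero]
      add_mem' := fun {u v} hu hv η e h => by
        rw [Matrix.mulVec_add, hu η e h, hv η e h, smul_add]
      smul_mem' := fun a u hu η e h => by
        rw [Matrix.mulVec_smul, hu η e h, smul_comm] }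
  have hmemV : ∀ u : Fin n → E, u ∈ V ↔ ∀ (η : Matrix (Fin n) (Fin n) K) (e : E),
      η.map (algebraMap K L) *ᵥ x = (e : L) • x → η.map (algebraMap K E) *ᵥ u = e • u :=
    fun u => Iff.rfl
  -- the derivative of a matrix of the algebra
  have hmapD : ∀ η : Matrix (Fin n) (Fin n) K,
      (η.map (algebraMap K L)).map DL = (η.map DK).map (algebraMap K L) := by
    intro η
    ext i j
    simp only [Matrix.map_apply, hD]
  have hδK : ∀ z : K, δ (algebraMap K E z) = algebraMap K E (DK z) := by
    intro z
    apply Subtype.ext
    rw [derE_coe]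
    exact hD z
  have hmapE : ∀ η : Matrix (Fin n) (Fin n) K,
      (η.map (algebraMap K E)).map δ = (η.map DK).map (algebraMap K E) := by
    intro η
    ext i j
    simp only [Matrix.map_apply, hδK]
  have hstab : ∀ (η : Matrix (Fin n) (Fin n) K) (e : E),
      η.map (algebraMap K L) *ᵥ x = (e : L) • x →
      (η.map DK + B * η - η * B).map (algebraMap K L) *ᵥ x = ((δ e : E) : L) • x := by
    intro η e h
    have h1 := der_mulVec DL (η.map (algebraMap K L)) x
    rw [h, der_smulVec, hmapD, hx] at h1
    have h2 : (η.map DK + B * η - η * B).map (algebraMap K L) =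
        (η.map DK).map (algebraMap K L) + B.map (algebraMap K L) * η.map (algebraMap K L) -
          η.map (algebraMap K L) * B.map (algebraMap K L) := by
      rw [← Matrix.map_mul, ← Matrix.map_mul, ← Matrix.map_add _ (map_add _),
        ← Matrix.map_sub _ (map_sub _)]
    rw [h2, Matrix.sub_mulVec, Matrix.add_mulVec, ← Matrix.mulVec_mulVec, ← Matrix.mulVec_mulVec,
      h, Matrix.mulVec_smul]
    rw [derE_coe]
    rw [smul_neg, Matrix.mulVec_neg] at h1
    rw [sub_eq_iff_eq_add]
    have h3 : DL (e : L) • x = (η.map DK).map (algebraMap K L) *ᵥ x +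
        -(η.map (algebraMap K L) *ᵥ B.map (algebraMap K L) *ᵥ x) +
        (e : L) • B.map (algebraMap K L) *ᵥ x := by
      rw [← h1]
      abel
    rw [h3]
    abel
  have hstabV : ∀ u ∈ V, (fun i => δ (u i)) + (B.map (algebraMap K E)) *ᵥ u ∈ V := by
    intro u hu η e h
    have hu1 := hu η e h
    have hu2 := hu _ _ (hstab η e h)
    have h1 := der_mulVec δ (η.map (algebraMap K E)) u
    rw [hu1, der_smulVec, hmapE] at h1
    have h2 : (η.map DK + B * η - η * B).map (algebraMap K E) =
        (η.map DK).map (algebraMap K E) + B.map (algebraMap K E) * η.map (algebraMap K E) -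
          η.map (algebraMap K E) * B.map (algebraMap K E) := by
      rw [← Matrix.map_mul, ← Matrix.map_mul, ← Matrix.map_add _ (map_add _),
        ← Matrix.map_sub _ (map_sub _)]
    rw [h2, Matrix.sub_mulVec, Matrix.add_mulVec, ← Matrix.mulVec_mulVec, ← Matrix.mulVec_mulVec,
      hu1, Matrix.mulVec_smul] at hu2
    rw [Matrix.mulVec_add, smul_add]
    have h3 : (η.map DK).map (algebraMap K E) *ᵥ u = δ e • u - e • B.map (algebraMap K E) *ᵥ u +
        η.map (algebraMap K E) *ᵥ B.map (algebraMap K E) *ᵥ u := by
      rw [← hu2]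
      abel
    have h4 : η.map (algebraMap K E) *ᵥ (fun i => δ (u i)) = δ e • u + e • (fun i => δ (u i)) -
        (η.map DK).map (algebraMap K E) *ᵥ u := by
      rw [h1]
      abel
    rw [h4, h3]
    abel
  -- the submodule is not zero
  obtain ⟨a₀, ha₀⟩ : ∃ a, x a ≠ 0 := by
    by_contra hcon
    push Not at hcon
    exact hx0 (funext hcon)
  obtain ⟨φ, hφ⟩ : ∃ φ : Module.Dual E L, φ (x a₀) ≠ 0 := by
    by_contra hcon
    push Not at hcon
    exact ha₀ ((Module.forall_dual_apply_eq_zero_iff E (x a₀)).1 hcon)
  have hφV : (fun a => φ (x a)) ∈ V := by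
    intro η e h
    funext i
    have hi : ∑ j, algebraMap K L (η i j) * x j = (e : L) * x i := congrFun h i
    change ∑ j, algebraMap K E (η i j) * φ (x j) = e * φ (x i)
    have h5 : φ ((e : L) * x i) = e * φ (x i) := by
      have := φ.map_smul e (x i)
      rw [smul_eq_mul] at this
      rw [← this]
      rfl
    rw [← h5, ← hi, map_sum]
    refine Finset.sum_congr rfl fun j _ => ?_
    have := φ.map_smul (algebraMap K E (η i j)) (x j)
    rw [smul_eq_mul] at this
    rw [← this]
    rfl
  have hVtop : V = ⊤ := by
    rcases hirr δ hδK V hstabV with h | h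
    · exfalso
      rw [h, Submodule.mem_bot] at hφV
      exact hφ (congrFun hφV a₀)
    · exact h
  -- `c` is algebraic
  have hcE : c ∈ algebraicClosure K L := by
    rw [mem_algebraicClosure_iff]
    refine ⟨θ.charpoly, θ.charpoly_monic.ne_zero, ?_⟩
    have h6 : (Matrix.scalar (Fin n) c - θ.map (algebraMap K L)).det = 0 := by
      rw [← Matrix.exists_mulVec_eq_zero_iff]
      refine ⟨x, hx0, ?_⟩
      rw [Matrix.sub_mulVec, hθ, sub_eq_zero]
      funext i
      rw [Matrix.scalar_apply, Matrix.mulVec_diagonal]
      rfl
    rw [aeval_def, ← eval_map, ← Matrix.charpoly_map, Matrix.eval_charpoly]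
    exact h6
  have hall : ∀ j, θ.map (algebraMap K E) *ᵥ (Pi.single j 1) =
      (⟨c, hcE⟩ : E) • (Pi.single j 1 : Fin n → E) := by
    intro j
    have : (Pi.single j 1 : Fin n → E) ∈ V := by
      rw [hVtop]
      trivial
    exact this θ ⟨c, hcE⟩ hθ
  have hent : ∀ i j, algebraMap K E (θ i j) = if i = j then (⟨c, hcE⟩ : E) else 0 := by
    intro i j
    have := congrFun (hall j) i
    rw [Matrix.mulVec_single_one] at this
    change algebraMap K E (θ i j) = (⟨c, hcE⟩ : E) * (Pi.single j 1 : Fin n → E) i at this
    rw [this]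
    split_ifs with h
    · subst h
      rw [Pi.single_eq_same, mul_one]
    · rw [Pi.single_eq_of_ne h, mul_zero]
  refine ⟨θ a₀ a₀, ?_⟩
  ext i j
  apply (algebraMap K E).injective
  rw [hent i j, Matrix.diagonal_apply]
  split_ifs with h
  · have := hent a₀ a₀
    rw [if_pos rfl] at this
    exact this.symm
  · rw [map_zero]

end alg

section indep

variable {K L : Type} [Field K] [Field L] [Algebra K L]

/-- The entries of a horizontal functional are linearly independent. -/
theorem indep (DK : Der K) (DL : Der L)
    (hD : ∀ z, DL (algebraMap K L z) = algebraMap K L (DK z)) {n : ℕ}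
    (B : Matrix (Fin n) (Fin n) K)
    (hirr : ∀ W : Submodule K (Fin n → K), (∀ u ∈ W, (fun i => DK (u i)) + B *ᵥ u ∈ W) →
        W = ⊥ ∨ W = ⊤)
    (ξ : Fin n → L) (hξ : ∀ a, DL (ξ a) = ∑ b, algebraMap K L (B b a) * ξ b) (hξ0 : ξ ≠ 0)
    (z : Fin n → K) (hz : ∑ a, algebraMap K L (z a) * ξ a = 0) : z = 0 := by
  let Z : Submodule K (Fin n → K) :=
    { carrier := {u | ∑ a, algebraMap K L (u a) * ξ a = 0}
      zero_mem' := by
        change ∑ a, algebraMap K L 0 * ξ a = 0
        simp
      add_mem' := fun {u v} hu hv => by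
        change ∑ a, algebraMap K L (u a + v a) * ξ a = 0
        simp only [map_add, add_mul, Finset.sum_add_distrib]
        rw [show ∑ a, algebraMap K L (u a) * ξ a = 0 from hu,
          show ∑ a, algebraMap K L (v a) * ξ a = 0 from hv, add_zero]
      smul_mem' := fun c u hu => by
        change ∑ a, algebraMap K L (c * u a) * ξ a = 0
        simp only [map_mul, mul_assoc]
        rw [← Finset.mul_sum, show ∑ a, algebraMap K L (u a) * ξ a = 0 from hu, mul_zero] }
  have hstab : ∀ u ∈ Z, (fun i => DK (u i)) + B *ᵥ u ∈ Z := by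
    intro u hu
    have hu' : ∑ a, algebraMap K L (u a) * ξ a = 0 := hu
    change ∑ a, algebraMap K L (DK (u a) + ∑ b, B a b * u b) * ξ a = 0
    have h1 := congrArg DL hu'
    rw [map_sum, map_zero] at h1
    simp only [Derivation.leibniz, smul_eq_mul, hD, hξ, Finset.sum_add_distrib] at h1
    simp only [map_add, add_mul, Finset.sum_add_distrib, map_sum, map_mul]
    have h2 : ∑ a, algebraMap K L (u a) * ∑ b, algebraMap K L (B b a) * ξ b =
        ∑ a, (∑ b, algebraMap K L (B a b) * algebraMap K L (u b)) * ξ a := by
      simp only [Finset.mul_sum, Finset.sum_mul]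
      rw [Finset.sum_comm]
      refine Finset.sum_congr rfl fun a _ => Finset.sum_congr rfl fun b _ => ?_
      ring
    rw [← h2, add_comm, ← h1]
    congr 1
    refine Finset.sum_congr rfl fun a _ => ?_
    ring
  rcases hirr Z hstab with h | h
  · have : z ∈ Z := hz
    rw [h, Submodule.mem_bot] at this
    exact this
  · exfalso
    apply hξ0
    funext a
    have : (Pi.single a 1 : Fin n → K) ∈ Z := by
      rw [h]
      trivial
    have h3 : ∑ b, algebraMap K L ((Pi.single a 1 : Fin n → K) b) * ξ b = 0 := this
    rw [Finset.sum_eq_single a] at h3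
    · rw [Pi.single_eq_same, map_one, one_mul] at h3
      exact h3
    · intro b _ hb
      rw [Pi.single_eq_of_ne hb, map_zero, zero_mul]
    · intro h4
      exact absurd (Finset.mem_univ a) h4

end indep

end Pool.Agent.Helper12.BW
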