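import Pool.Agent.Helper62.BW.Stm
import Pool.Agent.Helper12.BW.Schur

/-!
# Irreducible connections are strong (package W_Strong)
-/

set_option autoImplicit false

open Polynomial Matrix Finset

namespace Pool.Agent.Helper12.BW

open Pool.Agent.Helper62.BM Pool.Agent.Helper62.BW Pool.Agent.Helper12.BM

section tay

variable {k : Type} [Field k]

theorem constCoeff_tay (c : k) (q : k[X]) :
    PowerSeries.constantCoeff (tay c q) = q.eval c := by
  have h : (PowerSeries.constantCoeff (R := k)).comp (tay c) = Polynomial.evalRingHom c := by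
    apply Polynomial.ringHom_ext
    · intro a
      change PowerSeries.constantCoeff (tay c (Polynomial.C a)) = (Polynomial.C a).eval c
      unfold tay
      rw [Polynomial.coe_eval₂RingHom, Polynomial.eval₂_C, PowerSeries.constantCoeff_C,
        Polynomial.eval_C]
    · change PowerSeries.constantCoeff (tay c X) = (X : k[X]).eval c
      unfold tay
      rw [Polynomial.coe_eval₂RingHom, Polynomial.eval₂_X, map_add, PowerSeries.constantCoeff_X,
        PowerSeries.constantCoeff_C, zero_add, Polynomial.eval_X]
  exact RingHom.congr_fun h q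

theorem tay_sub (c : k) : tay c (X - Polynomial.C c) = PowerSeries.X := by
  unfold tay
  rw [map_sub, Polynomial.coe_eval₂RingHom, Polynomial.eval₂_X, Polynomial.eval₂_C,
    add_sub_cancel_right]

theorem tay_inj (c : k) : Function.Injective (tay c) := by
  rw [injective_iff_map_eq_zero]
  intro q hq
  by_contra hne
  obtain ⟨r, hr, hr2⟩ := Polynomial.exists_eq_pow_rootMultiplicity_mul_and_not_dvd q hne c
  rw [hr, map_mul, map_pow, tay_sub] at hq
  rcases mul_eq_zero.1 hq with h | h
  · exact pow_ne_zero _ PowerSeries.X_ne_zero h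
  · apply hr2
    rw [Polynomial.dvd_iff_isRoot, Polynomial.IsRoot.def, ← constCoeff_tay, h, map_zero]

theorem tay_C (c a : k) : tay c (Polynomial.C a) = PowerSeries.C a := by
  unfold tay
  rw [Polynomial.coe_eval₂RingHom, Polynomial.eval₂_C]

theorem tay_der (c : k) (q : k[X]) :
    PowerSeries.derivative k (tay c q) = tay c (derivative q) := by
  induction q using Polynomial.induction_on' with
  | add p q hp hq => rw [map_add, map_add, hp, hq, derivative_add, map_add]
  | monomial m a =>
    rw [derivative_monomial, ← C_mul_X_pow_eq_monomial, ← C_mul_X_pow_eq_monomial,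
      map_mul (tay c), map_mul (tay c), map_pow (tay c), map_pow (tay c), tay_C, tay_C,
      Derivation.leibniz, Derivation.leibniz_pow]
    have h1 : PowerSeries.derivative k (tay c X) = 1 := by
      unfold tay
      rw [Polynomial.coe_eval₂RingHom, Polynomial.eval₂_X, map_add]
      rw [show PowerSeries.derivative k (PowerSeries.X : PowerSeries k) = 1 from
        PowerSeries.derivative_X]
      rw [show PowerSeries.derivative k (PowerSeries.C c) = 0 from PowerSeries.derivative_C,
        add_zero]
    have h2 : PowerSeries.derivative k (PowerSeries.C a) = 0 := PowerSeries.derivative_C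
    rw [h1, h2, smul_zero, add_zero, smul_eq_mul, smul_eq_mul, nsmul_eq_mul, mul_one, map_mul,
      map_natCast]
    ring

end tay

section conc

variable (k : Type) [Field k]

/-- The field of Laurent series. -/
def LS : Type := FractionRing (PowerSeries k)

noncomputable instance : Field (LS k) := inferInstanceAs (Field (FractionRing (PowerSeries k)))

noncomputable instance : Algebra (PowerSeries k) (LS k) :=
  inferInstanceAs (Algebra (PowerSeries k) (FractionRing (PowerSeries k)))

instance : IsFractionRing (PowerSeries k) (LS k) :=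
  inferInstanceAs (IsFractionRing (PowerSeries k) (FractionRing (PowerSeries k)))

/-- The embedding of the rational functions. -/
noncomputable def emb (c : k) : KX k →+* LS k :=
  IsFractionRing.lift (A := k[X]) (K := KX k)
    (g := (algebraMap (PowerSeries k) (LS k)).comp (tay c))
    ((IsFractionRing.injective (PowerSeries k) (LS k)).comp (tay_inj c))

theorem emb_ι (c : k) (q : k[X]) : emb k c (ι k q) = algebraMap (PowerSeries k) (LS k) (tay c q) :=
  IsFractionRing.lift_algebraMap _ q

/-- The derivation of the power series, as an additive map. -/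
noncomputable def dP : PowerSeries k →+ PowerSeries k :=
  (PowerSeries.derivative k).toLinearMap.toAddMonoidHom

theorem dP_apply (u : PowerSeries k) : dP k u = PowerSeries.derivative k u := rfl

theorem dP_mul (u v : PowerSeries k) : dP k (u * v) = u * dP k v + v * dP k u := by
  rw [dP_apply, Derivation.leibniz, smul_eq_mul, smul_eq_mul]
  rfl

/-- The derivation of the Laurent series. -/
noncomputable def DL : Der (LS k) := derQ (LS k) (dP k) (dP_mul k)

theorem DL_alg (u : PowerSeries k) : DL k (algebraMap (PowerSeries k) (LS k) u) =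
    algebraMap (PowerSeries k) (LS k) (PowerSeries.derivative k u) :=
  derQ_alg (LS k) (dP k) (dP_mul k) u

theorem DL_emb (c : k) (z : KX k) : DL k (emb k c z) = emb k c (derK k z) := by
  obtain ⟨a, b, hb, rfl⟩ := IsFractionRing.div_surjective (A := k[X]) z
  have hb0 : ι k b ≠ 0 := IsFractionRing.to_map_ne_zero_of_mem_nonZeroDivisors hb
  have hb1 : emb k c (ι k b) ≠ 0 := (_root_.map_ne_zero _).2 hb0
  have hpoly : ∀ q : k[X], DL k (emb k c (ι k q)) = emb k c (derK k (ι k q)) := by
    intro q
    rw [emb_ι, DL_alg, tay_der, derK_ι, emb_ι]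
  have h1 : ι k a = (ι k a / ι k b) * ι k b := by rw [div_mul_cancel₀ _ hb0]
  have h2 := congrArg (derK k) h1
  rw [Derivation.leibniz, smul_eq_mul, smul_eq_mul] at h2
  have h3 := congrArg (emb k c) h1
  rw [map_mul] at h3
  have h4 := congrArg (DL k) h3
  rw [Derivation.leibniz, smul_eq_mul, smul_eq_mul, hpoly, hpoly, h2, map_add, map_mul,
    map_mul] at h4
  have h5 : emb k c (ι k b) * DL k (emb k c (ι k a / ι k b)) =
      emb k c (ι k b) * emb k c (derK k (ι k a / ι k b)) := by
    exact (add_left_cancel h4).symm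
  exact mul_left_cancel₀ hb1 h5

end conc

section main

variable {k : Type} [Field k] {g : ℕ}

theorem W_ne (D : Dat k g) (h : D.Ok) : D.W ≠ 0 := by
  intro h0
  have hw : D.w.eval D.c ≠ 0 := h.2.2.2.2.2.2.1
  have hw0 : D.w ≠ 0 := fun h1 => hw (by rw [h1, eval_zero])
  exact mul_ne_zero (X_sub_C_ne_zero D.c) hw0 h0

theorem w_strong : W_Strong := by
  intro k _ _ g hg D hOk hIrr x hx hxc
  obtain ⟨o1, o2, o3, o4, oδ, oδ', ow, oμ, oκ, oe, o5, o6⟩ := hOk
  have hOk : D.Ok := ⟨o1, o2, o3, o4, oδ, oδ', ow, oμ, oκ, oe, o5, o6⟩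
  have hW : D.W ≠ 0 := W_ne D hOk
  let _ : Algebra (KX k) (LS k) := (emb k D.c).toAlgebra
  have halg : ∀ z : KX k, algebraMap (KX k) (LS k) z = emb k D.c z := fun z => rfl
  have hD : ∀ z, DL k (algebraMap (KX k) (LS k) z) = algebraMap (KX k) (LS k) (derK k z) :=
    fun z => DL_emb k D.c z
  set a' : PowerSeries k →+* LS k := algebraMap (PowerSeries k) (LS k) with ha'
  have ha'inj : Function.Injective a' := IsFractionRing.injective (PowerSeries k) (LS k)
  have hWt : a' (tay D.c D.W) ≠ 0 := by
    intro h0
    exact hW (tay_inj D.c (ha'inj (by rw [h0, map_zero, map_zero])))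
  have hB : ∀ i j, algebraMap (KX k) (LS k) (D.B i j) * a' (tay D.c D.W) =
      a' (tay D.c (D.M i j)) := by
    intro i j
    have : D.B i j = ι k (D.M i j) * (ι k D.W)⁻¹ := rfl
    rw [halg, this, map_mul, map_inv₀, emb_ι, emb_ι, mul_assoc, inv_mul_cancel₀ hWt, mul_one]
  -- the vector `x` over the Laurent series
  set xL : Fin (2 * g) → LS k := fun a => a' (x a) with hxL
  have hxD : ∀ a, DL k (xL a) = -∑ b, algebraMap (KX k) (LS k) (D.B a b) * xL b := by
    intro a
    have h1 := congrArg a' (hx a)
    rw [map_add, map_mul, map_sum, map_zero] at h1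
    have h2 : a' (tay D.c D.W) * DL k (xL a) =
        a' (tay D.c D.W) * -∑ b, algebraMap (KX k) (LS k) (D.B a b) * xL b := by
      have h3 : a' (tay D.c D.W) * ∑ b, algebraMap (KX k) (LS k) (D.B a b) * xL b =
          ∑ b, a' (tay D.c (D.M a b) * x b) := by
        rw [Finset.mul_sum]
        refine Finset.sum_congr rfl fun b _ => ?_
        rw [map_mul, ← hB]
        ring
      rw [mul_neg, h3, DL_alg]
      linear_combination h1
    exact mul_left_cancel₀ hWt h2
  -- the matrix `Q` over the Laurent series
  set QL : Matrix (Fin (2 * g)) (Fin (2 * g)) (LS k) := D.Q.map (fun q => a' (tay D.c q)) with hQL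
  have hdetQ : QL.det = a' (PowerSeries.C D.δ) := by
    have h1 := (RingHom.map_det (a'.comp (tay D.c)) D.Q).symm
    rw [o3] at h1
    rw [← tay_C D.c]
    exact h1
  have hδL : a' (PowerSeries.C D.δ) ≠ 0 := by
    intro h0
    apply oδ
    have h1 := ha'inj (h0.trans (map_zero a').symm)
    have h2 := congrArg PowerSeries.constantCoeff h1
    rwa [PowerSeries.constantCoeff_C, map_zero] at h2
  -- `ξ`
  set ξ : Fin (2 * g) → LS k := fun a => a' (D.xi x a) with hξdef
  have hξadj : ξ = QL.adjugate *ᵥ xL := by
    funext a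
    have h1 : QL.adjugate = (D.Q.adjugate).map (fun q => a' (tay D.c q)) :=
      ((a'.comp (tay D.c)).map_adjugate D.Q).symm
    rw [h1]
    change a' (∑ b, tay D.c (D.Q.adjugate a b) * x b) =
      ∑ b, a' (tay D.c (D.Q.adjugate a b)) * a' (x b)
    rw [map_sum]
    exact Finset.sum_congr rfl fun b _ => map_mul _ _ _
  have hQξ : QL *ᵥ ξ = a' (PowerSeries.C D.δ) • xL := by
    rw [hξadj, Matrix.mulVec_mulVec, Matrix.mul_adjugate, hdetQ, Matrix.smul_mulVec,
      Matrix.one_mulVec]
  -- the derivative of `Q`
  set BL : Matrix (Fin (2 * g)) (Fin (2 * g)) (LS k) := D.B.map (algebraMap (KX k) (LS k))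
    with hBL
  have hQD : QL.map (DL k) = -(BL * QL + QL * BLᵀ) := by
    ext i j
    have h1 := congrFun (congrFun o5 i) j
    have h2 := congrArg (fun q => a' (tay D.c q)) h1
    simp only [Matrix.add_apply, Matrix.smul_apply, Matrix.map_apply, Matrix.mul_apply,
      Matrix.transpose_apply, Matrix.zero_apply, map_add, map_zero, map_mul, map_sum,
      smul_eq_mul] at h2
    have h3 : a' (tay D.c D.W) * (QL.map (DL k)) i j =
        a' (tay D.c D.W) * (-(BL * QL + QL * BLᵀ)) i j := by
      rw [Matrix.neg_apply, Matrix.add_apply, Matrix.mul_apply, Matrix.mul_apply, mul_neg, mul_add,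
        Finset.mul_sum, Finset.mul_sum]
      have h4 : ∑ l, a' (tay D.c D.W) * (BL i l * QL l j) =
          ∑ l, a' (tay D.c (D.M i l)) * a' (tay D.c (D.Q l j)) := by
        refine Finset.sum_congr rfl fun l _ => ?_
        rw [← hB, hBL, hQL, Matrix.map_apply, Matrix.map_apply]
        ring
      have h5 : ∑ l, a' (tay D.c D.W) * (QL i l * BLᵀ l j) =
          ∑ l, a' (tay D.c (D.Q i l)) * a' (tay D.c (D.M j l)) := by
        refine Finset.sum_congr rfl fun l _ => ?_
        rw [← hB, hBL, hQL, Matrix.transpose_apply, Matrix.map_apply, Matrix.map_apply]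
        ring
      have h6 : (QL.map (DL k)) i j = a' (tay D.c (derivative (D.Q i j))) := by
        rw [hQL, Matrix.map_apply, Matrix.map_apply, DL_alg, tay_der]
      rw [h4, h5, h6]
      linear_combination h2
    exact mul_left_cancel₀ hWt h3
  have hδD : DL k (a' (PowerSeries.C D.δ)) = 0 := by
    rw [DL_alg, show PowerSeries.derivative k (PowerSeries.C D.δ) = 0 from
      PowerSeries.derivative_C, map_zero]
  have hxD' : (fun a => DL k (xL a)) = -(BL *ᵥ xL) := by
    funext a
    rw [hxD a]
    rfl
  have hξD : (fun a => DL k (ξ a)) = BLᵀ *ᵥ ξ := by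
    have h1 := der_mulVec (DL k) QL ξ
    rw [hQξ, der_smulVec, hδD, zero_smul, zero_add, hQD, hxD', smul_neg, ← Matrix.mulVec_smul,
      ← hQξ, Matrix.neg_mulVec, Matrix.add_mulVec, ← Matrix.mulVec_mulVec,
      ← Matrix.mulVec_mulVec] at h1
    have h2 : QL *ᵥ (fun a => DL k (ξ a)) = QL *ᵥ (BLᵀ *ᵥ ξ) := by
      have h3 : -(BL *ᵥ QL *ᵥ ξ) + (BL *ᵥ QL *ᵥ ξ + QL *ᵥ BLᵀ *ᵥ ξ) =
          QL *ᵥ (fun i => DL k (ξ i)) := by
        rw [h1]
        abel
      rw [← h3]
      abel
    have hunit : IsUnit QL.det := by
      rw [hdetQ]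
      exact isUnit_iff_ne_zero.2 hδL
    have hinj := Matrix.mulVec_injective_of_isUnit ((Matrix.isUnit_iff_isUnit_det QL).2 hunit)
    exact hinj h2
  -- `x ≠ 0`, `ξ ≠ 0`
  have hr0 : D.r ≠ 0 := by
    intro h0
    apply oe
    have h1 : (D.Q.map (Polynomial.eval D.c)) *ᵥ D.e = 0 := by
      funext i
      exact congrFun h0 i
    have h2 : (D.Q.map (Polynomial.eval D.c)).det ≠ 0 := by
      have h3 := (RingHom.map_det (Polynomial.evalRingHom D.c) D.Q).symm
      rw [o3] at h3
      change (D.Q.map (Polynomial.eval D.c)).det = eval D.c (Polynomial.C D.δ) at h3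
      rw [h3, eval_C]
      exact oδ
    exact Matrix.eq_zero_of_mulVec_eq_zero h2 h1
  have hxL0 : xL ≠ 0 := by
    intro h0
    apply hr0
    funext a
    rw [← hxc a]
    have h1 : a' (x a) = 0 := congrFun h0 a
    rw [ha'inj (h1.trans (map_zero a').symm), map_zero]
    rfl
  have hξ0 : ξ ≠ 0 := by
    intro h0
    rw [h0, Matrix.mulVec_zero] at hQξ
    rcases smul_eq_zero.1 hQξ.symm with h | h
    · exact hδL h
    · exact hxL0 h
  refine ⟨?_, ?_⟩
  · -- independence
    intro z hz
    have h1 := indep (derK k) (DL k) hD D.B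
      (fun V hV => hIrr (KX k) (derK k) (fun q => by
        rw [Algebra.algebraMap_self, RingHom.id_apply, RingHom.id_apply, derK_ι]) V
        (fun u hu => by
          have h2 : D.B.map (algebraMap (KX k) (KX k)) = D.B := by
            ext i j
            rfl
          rw [h2]
          exact hV u hu)) ξ
      (fun a => by
        have h3 := congrFun hξD a
        exact h3) hξ0 (fun a => ι k (z a)) (by
        have h4 := congrArg a' hz
        rw [map_sum, map_zero] at h4
        rw [← h4]
        refine Finset.sum_congr rfl fun a _ => ?_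
        rw [map_mul, halg, emb_ι])
    funext a
    have h5 : ι k (z a) = 0 := congrFun h1 a
    exact (IsFractionRing.injective k[X] (KX k)) (h5.trans (map_zero _).symm)
  · intro θ hθ
    obtain ⟨b, hb⟩ : ∃ b, ξ b ≠ 0 := by
      by_contra hcon
      push Not at hcon
      exact hξ0 (funext hcon)
    set c : LS k := (∑ l, ξ l * a' (tay D.c (θ l b))) / ξ b with hc
    have hθx : (θ.map (ι k)).map (algebraMap (KX k) (LS k)) *ᵥ xL = c • xL := by
      funext a
      have h1 := congrFun (congrFun hθ a) b
      rw [Matrix.mul_apply, Matrix.mul_apply] at h1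
      have h2 := congrArg a' h1
      simp only [Matrix.map_apply, Matrix.vecMulVec_apply, map_sum, map_mul] at h2
      change ∑ j, algebraMap (KX k) (LS k) (ι k (θ a j)) * xL j = c * xL a
      have h3 : (∑ j, algebraMap (KX k) (LS k) (ι k (θ a j)) * xL j) * ξ b =
          (c * xL a) * ξ b := by
        have h4 : c * xL a * ξ b = xL a * ∑ l, ξ l * a' (tay D.c (θ l b)) := by
          rw [hc]
          field_simp
        rw [h4, Finset.sum_mul, Finset.mul_sum]
        have h5 : ∑ j, algebraMap (KX k) (LS k) (ι k (θ a j)) * xL j * ξ b =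
            ∑ j, a' (tay D.c (θ a j)) * (a' (x j) * a' (D.xi x b)) := by
          refine Finset.sum_congr rfl fun j _ => ?_
          rw [halg, emb_ι, mul_assoc]
        rw [h5, h2]
        refine Finset.sum_congr rfl fun j _ => ?_
        rw [mul_assoc]
      exact mul_right_cancel₀ hb h3
    obtain ⟨q, hq⟩ := schur (derK k) (DL k) hD D.B
      (fun δ hδ V hV => hIrr (algebraicClosure (KX k) (LS k)) δ (fun q => by
        rw [hδ, derK_ι]) V hV) xL hxD' hxL0 (θ.map (ι k)) c hθx
    have hent : ∀ i j, ι k (θ i j) = if i = j then q else 0 := by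
      intro i j
      have h1 := congrFun (congrFun hq i) j
      rw [Matrix.map_apply, Matrix.diagonal_apply] at h1
      exact h1
    have hι : Function.Injective (ι k) := IsFractionRing.injective k[X] (KX k)
    let i₀ : Fin (2 * g) := ⟨0, by omega⟩
    refine ⟨θ i₀ i₀, ?_⟩
    ext1 i j
    apply hι
    rw [hent i j, Matrix.diagonal_apply]
    split_ifs with h
    · have h2 := hent i₀ i₀
      rw [if_pos rfl] at h2
      exact h2.symm
    · rw [map_zero]

end main

end Pool.Agent.Helper12.BW
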